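import Mathlib
import Pool.Agent.H60.TMFib2

namespace Pool.Agent.Results.MP_e68cb8_nt.Q1

open Pool.Agent.H60.TMFib

/-- `|h_n| ≥ (2 / 7) |h_{n-1}|` for every `n ≥ 4`. -/
theorem result : ∀ n : ℕ, 4 ≤ n → (2 / 7 : ℚ) * |(h (n - 1) : ℚ)| ≤ |(h n : ℚ)| := by
  intro n hn
  have h1 := (Nat.cast_le (α := ℚ)).2 (ratio27 (n - 1) (by omega))
  rw [Nat.sub_add_cancel (by omega)] at h1
  simp only [Nat.cast_mul, Nat.cast_natAbs, Int.cast_abs, Nat.cast_ofNat] at h1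
  linarith

end Pool.Agent.Results.MP_e68cb8_nt.Q1
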