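import Mathlib
import Pool.Agent.H60.TMFib2

namespace Pool.Agent.Results.MP_e68cb8_nt.Q2

open Pool.Agent.H60.TMFib Filter

/-- `C_{1,0} = liminf ρ_{2n+1}` is strictly larger than `2 / 7`. -/
theorem result : (2 / 7 : ℝ) <
    liminf (fun n : ℕ => |(h (2 * n + 1) : ℝ)| / |(h (2 * n) : ℝ)|) atTop := by
  have key : ∀ᶠ n : ℕ in atTop, (29 / 100 : ℝ) ≤ |(h (2 * n + 1) : ℝ)| / |(h (2 * n) : ℝ)| ∧
      |(h (2 * n + 1) : ℝ)| / |(h (2 * n) : ℝ)| ≤ 5 := by
    filter_upwards [eventually_ge_atTop 8] with n hn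
    have h0 := h_pos (2 * n) (by omega)
    have h1 := (Nat.cast_le (α := ℝ)).2 (ratio (2 * n) (by omega)).2
    have h2 := (Nat.cast_le (α := ℝ)).2 (ratio_up (2 * n) (by omega))
    simp only [Nat.cast_mul, Nat.cast_natAbs, Int.cast_abs, Nat.cast_ofNat] at h0 h1 h2
    rw [le_div_iff₀ h0, div_le_iff₀ h0]
    constructor <;> linarith
  refine lt_of_lt_of_le (by norm_num) (le_liminf_of_le ?_ (key.mono fun n h => h.1))
  exact IsBoundedUnder.isCoboundedUnder_ge (isBoundedUnder_of_eventually_le (key.mono fun n h => h.2))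

end Pool.Agent.Results.MP_e68cb8_nt.Q2
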